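import Pool.Agent.H941R2.G44.Fin
import Pool.Agent.H941R2.G44.Model
import Pool.Agent.H941R2.G44.Rec
import Pool.Agent.H941R2.G44.Step
import Pool.Agent.H941R2.G44.Alg1
import Pool.Agent.H941R2.G44.ASM
import Pool.Agent.H941R2.G44.KB
import Pool.Agent.H941R2.G44.KA
import Pool.Agent.H941R2.G44.UG
import Pool.Agent.H941R2.G44.UG1
import Pool.Agent.H941R2.G44.UG2x
import Pool.Agent.H941R2.G44.UG3
import Pool.Agent.H941R2.G44.CW
import Pool.Agent.H941R2.G44.CU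
import Pool.Agent.H941R2.G44.PP
import Pool.Agent.H941R2.G44.KE
import Pool.Agent.H941R2.G44.KE1
import Pool.Agent.H941R2.G44.KE2
import Pool.Agent.H941R2.G44.KE3
import Pool.Agent.H941R2.G44.MC
import Pool.Agent.H941R2.G44.MR
import Pool.Agent.H941R2.G44.PI1
import Pool.Agent.H941R2.G44.PI2
import Pool.Agent.H941R2.G44.PI3
import Pool.Agent.H941R2.G44.FIB
import Pool.Agent.H941R2.G44.LAST
import Pool.Agent.H941R2.G44.LM
import Pool.Agent.H941R2.G44.BAS1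
import Pool.Agent.H941R2.G44.BAS2
import Pool.Agent.H941R2.G44.FD
import Pool.Agent.H98R2.RR.RR
import Pool.Agent.H98R2.RR.BS
import Pool.Agent.H98R2.RR.VI
import Pool.Agent.H98R2.RR.KL
import Pool.Agent.H98R2.RR.EX

set_option autoImplicit false

namespace Pool.Agent.H1.ISPAsm

open Pool.Agent.H98R2.RR

theorem cons : St_CONS := REC (Pool.Agent.H209R2.ISP.T.STEP ALG)

theorem bas2 : St_BAS2 := BAS2 BAS1

theorem kill : St_KILL :=
  ASM (KB BAS1 bas2 KA) (UG UG1 UG2x (UG3 BAS1 bas2) (CW BAS1 bas2) (CU BAS1 bas2) bas2) PP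
    (KEx MC MR PI1 (PI2 PI1) (PI3 PI1) (FIB BAS1 bas2) (KE1 BAS1 bas2 PI1 (FIB BAS1 bas2))
      (KE2 MC MR) KE3 FD)
    (LAST BAS1) (LM BAS1) (RR (BS (VI KL) EX)) (CU BAS1 bas2)

theorem final :
    ¬ (∀ (H : Type) [NormedAddCommGroup H] [InnerProductSpace ℂ H] [CompleteSpace H]
      (M : VonNeumannAlgebra H),
      (∃ Q ∈ M, IsIdempotentElem Q ∧ IsSelfAdjoint Q ∧ Q ≠ 0 ∧ Q ≠ 1) →
      ∀ A ∈ M, ∃ P ∈ M, IsIdempotentElem P ∧ IsSelfAdjoint P ∧ P ≠ 0 ∧ P ≠ 1 ∧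
        A * P = P * A * P) :=
  Pool.Agent.H209R2.ISP.T.FINAL Pool.Agent.H941R2.CM.MODEL cons kill

end Pool.Agent.H1.ISPAsm

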