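import Pool.Agent.H1.ISPAsm
import Pool.Agent.H941R2.CM.Gap

/-!
# An operator of a II₁ factor without invariant subspaces affiliated with the factor

The construction, the kill and the concrete tower are the library's (`H941R2.G44`, `H941R2.CM`,
`H98R2.RR`); here they are assembled for the concrete model, and the concrete algebra is shown to
be a factor with a cyclic and separating trace vector.
-/

set_option autoImplicit false
set_option linter.unusedSectionVars false
set_option maxHeartbeats 2000000

open Filter Topology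
open scoped ComplexOrder InnerProductSpace ENNReal lp

namespace Pool.Agent.H1.ISPMain

section core

open Pool.H711R2 Pool.Agent.H98R2.RR

/-- the operator -/
theorem core {H : Type} [NormedAddCommGroup H] [InnerProductSpace ℂ H] [CompleteSpace H]
    {M : VonNeumannAlgebra H} {τ : (H →L[ℂ] H) →ₗ[ℂ] ℂ} (T : Tower M τ) (hgap : 0 < T.gapc) :
    ∃ A ∈ M, ∀ P ∈ M, IsIdempotentElem P → IsSelfAdjoint P → A * P = P * A * P →
      P = 0 ∨ P = 1 := by
  classical
  obtain ⟨Cst, hC0, hK⟩ := Pool.Agent.H1.ISPAsm.kill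
  have hC := Pool.Agent.H1.ISPAsm.cons
  have hK' := hK H M τ T hgap
  let Φ : ℕ → (H →L[ℂ] H) → (H →L[ℂ] H) → ℝ := fun k S Si =>
    if h : T.Adm k S Si then
      (hK' k S Si h (1 / ((k : ℝ) + 1)) (by positivity)).choose else 1
  have hΦ : ∀ k S Si, 0 < Φ k S Si := by
    intro k S Si
    by_cases h : T.Adm k S Si
    · have h1 : Φ k S Si = (hK' k S Si h (1 / ((k : ℝ) + 1)) (by positivity)).choose := dif_pos h
      rw [h1]
      exact (hK' k S Si h (1 / ((k : ℝ) + 1)) (by positivity)).choose_spec.1
    · have h1 : Φ k S Si = 1 := dif_neg h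
      rw [h1]; exact one_pos
  obtain ⟨A, hA, hAk⟩ := hC H M τ T Φ hΦ
  refine ⟨A, hA, ?_⟩
  intro P hP hPi hPs hPA
  have hp : IsStarProjection P := ⟨hPi, hPs⟩
  set D : ℝ := Cst * (1 + T.gapc) with hD
  have hD0 : 0 < D := by positivity
  -- the estimate
  have hest : ∀ η : ℝ, 0 < η → η ≤ 1 → tr τ P - (tr τ P) ^ 2 ≤ D * η := by
    intro η hη hη1
    apply le_of_forall_pos_le_add
    intro ε hε
    obtain ⟨k0, y, hy, hny⟩ := T.dense P hP (η ^ 8) (by positivity)
    obtain ⟨n0, hn0⟩ := exists_nat_one_div_lt hε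
    set k := max k0 n0 with hk
    have hyk : y ∈ T.B k := by
      have : ∀ m, y ∈ T.B (k0 + m) := by
        intro m
        induction m with
        | zero => exact hy
        | succ m ih => exact T.B_mono _ _ ih
      have h2 := this (k - k0)
      rwa [Nat.add_sub_cancel' (le_max_left _ _)] at h2
    obtain ⟨S, Si, hadm, hinv⟩ := hAk k
    have h1 := hinv P hP hp hPA
    have h2 : Φ k S Si = (hK' k S Si hadm (1 / ((k : ℝ) + 1)) (by positivity)).choose :=
      dif_pos hadm
    have h3 := (hK' k S Si hadm (1 / ((k : ℝ) + 1)) (by positivity)).choose_spec.2 P hP hp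
      (fun z hz => by rw [← h2]; exact h1 z hz) y hyk η hη hη1 hny
    have h4 : 1 / ((k : ℝ) + 1) ≤ ε := by
      refine le_trans ?_ hn0.le
      apply one_div_le_one_div_of_le (by positivity)
      have : (n0 : ℝ) ≤ k := by exact_mod_cast le_max_right _ _
      linarith
    linarith
  have h0 : tr τ P - (tr τ P) ^ 2 ≤ 0 := by
    by_contra hcon
    have hcon := not_le.1 hcon
    set g := tr τ P - (tr τ P) ^ 2 with hg
    have h1 := hest (min 1 (g / (2 * D))) (by positivity) (min_le_left _ _)
    have h3 : D * min 1 (g / (2 * D)) ≤ D * (g / (2 * D)) :=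
      mul_le_mul_of_nonneg_left (min_le_right _ _) hD0.le
    have h4 : D * (g / (2 * D)) = g / 2 := by field_simp
    linarith
  have hn0 : 0 ≤ tr τ P := T.tr.tr_proj_nonneg hP hp
  have hn1 : 0 ≤ tr τ (1 - P) := T.tr.tr_proj_nonneg (vn_sub (vn_one M) hP) hp.one_sub
  have h1P : tr τ (1 - P) = 1 - tr τ P := by rw [tr_sub, T.tr.tr_one]
  rcases eq_or_lt_of_le hn0 with h | h
  · exact Or.inl (Pool.Agent.H209R2.ISP.T.proj_zero T P hP hp h.symm)
  · have h2 : tr τ (1 - P) = 0 := by
      rw [h1P] at hn1 ⊢
      nlinarith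
    have h3 := Pool.Agent.H209R2.ISP.T.proj_zero T (1 - P) (vn_sub (vn_one M) hP) hp.one_sub h2
    exact Or.inr (sub_eq_zero.1 h3).symm

end core

open Pool.Agent.H941R2.CM Pool.Agent.Helper741.GroupVN

/-- the group von Neumann algebra of the model is a factor -/
theorem center {x : Hs →L[ℂ] Hs} (hx : x ∈ M) (hc : ∀ y ∈ M, x * y = y * x) :
    ∃ c : ℂ, x = c • (1 : Hs →L[ℂ] Hs) := by
  classical
  set f : Hs := x xi with hf
  -- commutation with `u g`
  have hu : ∀ (g : G) (z : P) (k : G),
      f (z, k * g⁻¹) = (((z : Circle) ^ (-ex g) : Circle) : ℂ) * f (z, g⁻¹ * k) := by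
    intro g z k
    have h1 := congrArg (fun T : Hs →L[ℂ] Hs => T xi (z, k)) (hc (u g) (u_mem g))
    simp only [mul_apply_eq_comp] at h1
    have h2 : u g xi = delta ((1, g) : Y) := by
      ext ⟨z', k'⟩
      rw [u_apply, xi_apply, delta_apply]
      by_cases e : (z', k') = ((1, g) : Y)
      · obtain ⟨e1, e2⟩ := Prod.mk.inj e
        subst e1; subst e2
        simp
      · rw [if_neg e, if_neg, mul_zero]
        intro e'
        apply e
        obtain ⟨e1, e2⟩ := Prod.mk.inj e'
        rw [e1, (inv_mul_eq_one.mp e2).symm]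
    rw [h2, coef hx, u_apply] at h1
    rw [← h1]
    simp [hf]
  -- conjugation invariance under the kernel of `ex`
  have hcj : ∀ (g : G), ex g = 0 → f = Cj g f := by
    intro g hg
    ext ⟨z, k⟩
    rw [Cj_apply]
    have h1 := hu g⁻¹ z (k * g⁻¹)
    rw [inv_inv, ex_inv, hg, neg_zero, neg_zero, zpow_zero, Circle.coe_one, one_mul,
      inv_mul_cancel_right] at h1
    rw [h1, mul_assoc]
  have h10 : ‖Rs (fun h => h ≠ 1) f‖ ≤ 10 * 0 := by
    refine gap_vec f ?_ ?_
    · rw [← hcj gb ex_gb, sub_self, norm_zero]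
    · rw [← hcj gc ex_gc, sub_self, norm_zero]
  have hne : ∀ (z : P) (k : G), k ≠ 1 → f (z, k) = 0 := by
    intro z k hk
    have h2 : Rs (fun h => h ≠ 1) f = 0 := by
      rw [mul_zero] at h10
      exact norm_le_zero_iff.mp h10
    have h3 := congrArg (fun η : Hs => η (z, k)) h2
    simp only [Rs_apply] at h3
    rw [if_pos hk] at h3
    exact h3
  have hone : ∀ (z : P), z ≠ 1 → f (z, 1) = 0 := by
    intro z hz
    have h1 := hu ga z ga
    rw [mul_inv_cancel, inv_mul_cancel, ex_ga, zpow_neg, zpow_one] at h1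
    have h2 : (1 - (((z : Circle)⁻¹ : Circle) : ℂ)) * f (z, 1) = 0 := by
      rw [sub_mul, one_mul, ← h1, sub_self]
    rcases mul_eq_zero.mp h2 with h3 | h3
    · exfalso
      apply hz
      have h4 : (((z : Circle)⁻¹ : Circle) : ℂ) = ((1 : Circle) : ℂ) := by
        rw [Circle.coe_one]
        exact (sub_eq_zero.mp h3).symm
      have h5 : (z : Circle)⁻¹ = 1 := Circle.ext h4
      have h6 : (z : Circle) = 1 := inv_eq_one.mp h5
      exact Subtype.ext h6
    · exact h3
  refine ⟨f (1, 1), ext_M hx (smul_mem_M _ (one_mem _)) ?_⟩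
  rw [_root_.smul_apply, one_apply_eq_self, ← hf]
  ext ⟨z, k⟩
  rw [lp.coeFn_smul, Pi.smul_apply, xi_apply, smul_eq_mul]
  by_cases e : (z, k) = ((1, 1) : Y)
  · rw [if_pos e, mul_one, e]
  · rw [if_neg e, mul_zero]
    by_cases hk : k = 1
    · subst hk
      refine hone z fun hz => e ?_
      rw [hz]
    · exact hne z k hk

/-- the trace vector is cyclic -/
theorem cyclic : Dense {v : Hs | ∃ x ∈ M, v = x xi} := by
  classical
  have key : ∀ y : Y, (delta y : Hs) = (V y.1 * u y.2) xi := by
    rintro ⟨z, h⟩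
    ext ⟨z', h'⟩
    rw [mul_apply_eq_comp, V_apply, u_apply, xi_apply, delta_apply]
    by_cases e : (z', h') = ((z, h) : Y)
    · obtain ⟨e1, e2⟩ := Prod.mk.inj e
      subst e1; subst e2
      simp
    · rw [if_neg e, if_neg, mul_zero]
      intro e'
      apply e
      obtain ⟨e1, e2⟩ := Prod.mk.inj e'
      rw [mul_inv_eq_one.mp e1, (inv_mul_eq_one.mp e2).symm]
  have hd : Dense ((Submodule.span ℂ (Set.range (delta : Y → Hs)) : Submodule ℂ Hs) : Set Hs) := by
    rw [dense_iff_closure_eq]
    have := congrArg (fun S : Submodule ℂ Hs => (S : Set Hs)) (dense_delta (Y := Y))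
    simpa using this
  refine hd.mono ?_
  intro v hv
  rw [SetLike.mem_coe] at hv
  induction hv using Submodule.span_induction with
  | mem v hv =>
    obtain ⟨y, rfl⟩ := hv
    exact ⟨_, mul_mem (V_mem _) (u_mem _), key y⟩
  | zero => exact ⟨0, zero_mem _, rfl⟩
  | add v w _ _ ihv ihw =>
    obtain ⟨a, ha, rfl⟩ := ihv
    obtain ⟨b, hb, rfl⟩ := ihw
    exact ⟨a + b, add_mem ha hb, rfl⟩
  | smul c v _ ihv =>
    obtain ⟨a, ha, rfl⟩ := ihv
    exact ⟨c • a, smul_mem_M c ha, rfl⟩

instance countP : Countable P := by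
  have h1 : ∀ k : ℕ, Set.Finite {z : Circle | z ^ (2 ^ k) = 1} := by
    intro k
    have hpos : 0 < 2 ^ k := by positivity
    have h2 : Set.Finite {z : ℂ | z ^ (2 ^ k) = 1} := by
      have h3 : {z : ℂ | z ^ (2 ^ k) = 1} ⊆
          ((Polynomial.nthRoots (2 ^ k) (1 : ℂ)).toFinset : Set ℂ) := by
        intro z hz
        rw [Finset.mem_coe, Multiset.mem_toFinset, Polynomial.mem_nthRoots hpos]
        exact hz
      exact (Finset.finite_toSet _).subset h3
    have h4 : {z : Circle | z ^ (2 ^ k) = 1} ⊆
        (fun z : Circle => (z : ℂ)) ⁻¹' {z : ℂ | z ^ (2 ^ k) = 1} := by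
      intro z hz
      show (z : ℂ) ^ (2 ^ k) = 1
      rw [← Circle.coe_pow, show z ^ (2 ^ k) = 1 from hz, Circle.coe_one]
    exact (h2.preimage (Circle.coe_injective.injOn)).subset h4
  have h5 : (P : Set Circle) ⊆ ⋃ k : ℕ, {z : Circle | z ^ (2 ^ k) = 1} := by
    intro z hz
    obtain ⟨k, hk⟩ := hz
    exact Set.mem_iUnion.mpr ⟨k, hk⟩
  have h6 : (P : Set Circle).Countable :=
    (Set.countable_iUnion fun k => (h1 k).countable).mono h5
  exact h6.to_subtype

instance countG : Countable G := by
  refine Function.Surjective.countable (f := fun L : List (Bool × Bool) => (FreeGroup.mk L : G)) ?_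
  intro x
  exact ⟨x.toWord, FreeGroup.mk_toWord⟩

theorem sep : TopologicalSpace.SeparableSpace Hs := by
  haveI : Countable Y := inferInstance
  exact separable_L2

theorem infDim : ¬ FiniteDimensional ℂ Hs := by
  classical
  intro hfin
  -- the vectors `delta (1, ga ^ n)` are orthonormal
  have h1 : LinearIndependent ℂ (fun n : ℤ => (delta ((1, ga ^ n) : Y) : Hs)) := by
    have h2 : Orthonormal ℂ (fun n : ℤ => (delta ((1, ga ^ n) : Y) : Hs)) := by
      rw [orthonormal_iff_ite]
      intro i j
      have h3 : ⟪(delta ((1, ga ^ i) : Y) : Hs), delta ((1, ga ^ j) : Y)⟫_ℂ =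
          (delta ((1, ga ^ j) : Y) : Hs) ((1, ga ^ i) : Y) := by
        conv_lhs => unfold delta
        rw [lp.inner_single_left]
        simp [delta]
      rw [h3, delta_apply]
      by_cases e : i = j
      · subst e
        simp
      · rw [if_neg e, if_neg]
        intro e'
        apply e
        have h4 := congrArg ex (Prod.mk.inj e').2
        rwa [ex_zpow, ex_zpow, ex_ga, mul_one, mul_one] at h4
    exact h2.linearIndependent
  haveI := h1.finite
  exact not_finite ℤ

/-- from projections to subspaces -/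
theorem subspaces {H : Type} [NormedAddCommGroup H] [InnerProductSpace ℂ H] [CompleteSpace H]
    {M : VonNeumannAlgebra H} {A : H →L[ℂ] H}
    (h : ∀ P ∈ M, IsIdempotentElem P → IsSelfAdjoint P → A * P = P * A * P → P = 0 ∨ P = 1)
    (V : Submodule ℂ H) (hV : IsClosed (V : Set H)) (hA : ∀ v ∈ V, A v ∈ V)
    (hS : ∀ S ∈ M.commutant, ∀ v ∈ V, S v ∈ V) : V = ⊥ ∨ V = ⊤ := by
  haveI : CompleteSpace V := hV.completeSpace_coe
  have hp : IsStarProjection V.starProjection := isStarProjection_starProjection
  have hfix : ∀ v ∈ V, V.starProjection v = v := fun v hv =>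
    Submodule.starProjection_eq_self_iff.mpr hv
  have k1 : ∀ S ∈ M.commutant, V.starProjection * S * V.starProjection =
      S * V.starProjection := by
    intro S hSM
    ext1 x
    rw [mul_apply_eq_comp, mul_apply_eq_comp, mul_apply_eq_comp]
    exact hfix _ (hS S hSM _ (Submodule.starProjection_apply_mem _ _))
  have k2 : ∀ S ∈ M.commutant, V.starProjection * S = S * V.starProjection := by
    intro S hSM
    have h2 := k1 (star S) (star_mem hSM)
    have h3 := congrArg star h2
    rw [star_mul, star_mul, star_mul, star_star, hp.isSelfAdjoint.star_eq] at h3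
    rw [← h3, ← mul_assoc, k1 S hSM]
  have hPM : V.starProjection ∈ M := by
    rw [← VonNeumannAlgebra.commutant_commutant M, VonNeumannAlgebra.mem_commutant_iff]
    intro S hSM
    exact (k2 S hSM).symm
  have hAP : A * V.starProjection = V.starProjection * A * V.starProjection := by
    ext1 x
    rw [mul_apply_eq_comp, mul_apply_eq_comp, mul_apply_eq_comp]
    exact (hfix _ (hA _ (Submodule.starProjection_apply_mem _ _))).symm
  rcases h V.starProjection hPM hp.isIdempotentElem hp.isSelfAdjoint hAP with h0 | h1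
  · left
    rw [eq_bot_iff]
    intro v hv
    have := hfix v hv
    rw [h0] at this
    rw [Submodule.mem_bot, ← this]
    rfl
  · right
    rw [eq_top_iff]
    intro v _
    have h2 : V.starProjection v = v := by rw [h1]; rfl
    rw [← h2]
    exact Submodule.starProjection_apply_mem _ _

end Pool.Agent.H1.ISPMain
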